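import Pool.Agent.Work.MP_10b086_an.Wild.Defs
import Pool.Agent.Work.MP_10b086_an.Trace

/-!
# The statements of the separable example

See `BLUEPRINT.md` in this folder.
-/

open Cardinal Submodule Finset Filter Topology
open scoped ComplexConjugate

namespace Pool.Agent.Work.MP_10b086_an.Wild

/-! ### The concrete spaces -/

/-- C1: the concrete operators exist -/
def ClaimC1 : Prop := ∃ π ρ b, Conc π ρ b

/-- C2: freeness -/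
def ClaimC2 : Prop := ∀ π ρ b, Conc π ρ b → ∀ (n : ℕ) (x y : Fin n → UU),
  LinearIndependent ℂ x → ∑ i, b (x i) (y i) = 0 → ∀ i, y i = 0

/-- C3: for a positive-size set of diagonal matrices: every element of `BB b ⊤` has finite rank -/
def ClaimC3 : Prop := ∀ π ρ b, Conc π ρ b → ∀ z ∈ BB b ⊤, (∀ n k : ℕ, n ≠ k → z (n, k) = 0) →
  {n : ℕ | z (n, n) ≠ 0}.Finite

/-- C4: a family of diagonal elements indexed by the continuum, independent modulo the elements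
with finitely many nonzero entries on the diagonal -/
def ClaimC4 : Prop := ∃ y : Set.Ioo (0 : ℝ) (1 / 2) → ZZ,
  (∀ t, ∀ n k : ℕ, n ≠ k → y t (n, k) = 0) ∧
  ∀ a : Set.Ioo (0 : ℝ) (1 / 2) →₀ ℂ,
    {n : ℕ | (Finsupp.linearCombination ℂ y a) (n, n) ≠ 0}.Finite → a = 0

/-- C5: many independent directions -/
def ClaimC5 : Prop := ∀ π ρ b, Conc π ρ b → ∀ C : Set ZZ, #C < 𝔠 → ∃ s : ℕ → ZZ,
    LinearIndependent ℂ fun n => (span ℂ C ⊔ BB b ⊤).mkQ (s n)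

/-- C6: the quadratic systems can be solved -/
def ClaimC6 : Prop := ∀ π ρ b, Conc π ρ b →
  ∀ (z q : ℕ → ZZ) (m : ℕ → ℕ) (g g' : ℕ → ℕ → UU) (a a' : ℕ → ℕ → (ℕ →₀ ℂ)),
    ∃ Y : ℕ → UU, ∀ k,
      π (Y k) = z k + ∑ i ∈ range (m k), b (g' k i + lc Y (a' k i)) (g k i + lc Y (a k i)) ∧
      ρ (Y k) = q k

/-- C7: cardinality -/
def ClaimC7 : Prop := #UU ≤ 𝔠

/-- C8: separability -/
def ClaimC8 : Prop := TopologicalSpace.SeparableSpace UU ∧ TopologicalSpace.SeparableSpace ZZ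

/-- C9: the frame -/
def ClaimC9 : Prop := Nonempty (Frame UU ZZ)

/-! ### Linear algebra -/

/-- L1: elements of `BB b G` as finite sums -/
def ClaimL1 : Prop := ∀ (U Z : Type) [NormedAddCommGroup U] [NormedSpace ℂ U]
  [NormedAddCommGroup Z] [NormedSpace ℂ Z] (b : U →ₗ[ℂ] U →ₗ[ℂ] Z) (G : Submodule ℂ U) (z : Z),
  z ∈ BB b G ↔ ∃ (n : ℕ) (x y : ℕ → U), (∀ i, x i ∈ G) ∧ (∀ i, y i ∈ G) ∧
    z = ∑ i ∈ range n, b (x i) (y i)

/-- L2: balanced maps vanish on relations -/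
def ClaimL2 : Prop := ∀ (U Z : Type) [NormedAddCommGroup U] [NormedSpace ℂ U]
  [NormedAddCommGroup Z] [NormedSpace ℂ Z] (F : Frame U Z) (X W : Type) [AddCommGroup X]
  [Module ℂ X] [AddCommGroup W] (Φ : X →ₗ[ℂ] U), Function.Injective Φ → ∀ (β : X → X → W),
  (∀ x x' y, β (x + x') y = β x y + β x' y) → (∀ x y y', β x (y + y') = β x y + β x y') →
  (∀ (c : ℂ) x y, β (c • x) y = β x (c • y)) →
  ∀ (n : ℕ) (x y : ℕ → X), ∑ i ∈ range n, F.b (Φ (x i)) (Φ (y i)) = 0 →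
    ∑ i ∈ range n, β (x i) (y i) = 0

/-- L3: relative bases -/
def ClaimL3 : Prop := ∀ (E : Type) [AddCommGroup E] [Module ℂ E] (X Y : Submodule ℂ E)
  (S : Set E), S.Countable → X ≤ Y ⊔ span ℂ S →
  ∃ (I : Type) (_ : Countable I) (v : I → E), (∀ i, v i ∈ X) ∧
    LinearIndependent ℂ (fun i => Y.mkQ (v i)) ∧ X ≤ Y ⊔ span ℂ (Set.range v)

/-- L4: countable closed hulls -/
def ClaimL4 : Prop := ∀ (U Z : Type) [NormedAddCommGroup U] [NormedSpace ℂ U]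
  [NormedAddCommGroup Z] [NormedSpace ℂ Z] (F : Frame U Z) (G : Submodule ℂ U), F.Closed G →
  ∀ C : Set U, C.Countable → ∃ S : Set U, S.Countable ∧ C ⊆ S ∧ F.Closed (G ⊔ span ℂ S)

/-- L5: the closed extension of `G` containing `u` -/
def ClaimL5 : Prop := ∀ (U Z : Type) [NormedAddCommGroup U] [NormedSpace ℂ U]
  [NormedAddCommGroup Z] [NormedSpace ℂ Z] (F : Frame U Z) (G : Submodule ℂ U), F.Closed G →
  ∀ κ : Cardinal.{0}, κ < 𝔠 → Size G κ → ∀ u : U,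
  ∃ (x : ℕ → U) (K : Set ℕ) (m : ℕ → ℕ) (v w : ℕ → ℕ → U),
    LinearIndependent ℂ (fun n => G.mkQ (x n)) ∧
    u ∈ G ⊔ span ℂ (Set.range x) ∧
    (∀ k i, v k i ∈ G ⊔ span ℂ (Set.range x)) ∧
    (∀ k i, w k i ∈ G ⊔ span ℂ (Set.range x)) ∧
    (∀ k ∈ K, F.π (x k) = ∑ i ∈ range (m k), F.b (v k i) (w k i)) ∧
    (∀ k ∉ K, m k = 0) ∧
    (∀ g ∈ G, ∀ a : ℕ →₀ ℂ, F.π (g + lc x a) ∈ BB F.b ⊤ → ∀ k ∉ K, a k = 0)

/-! ### Forms -/

/-- D1: orthogonalisation -/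
def ClaimD1 : Prop := ∀ (E : Type) [AddCommGroup E] [Module ℂ E] (H : E → E → ℂ),
  (∀ g g' k, H (g + g') k = H g k + H g' k) → (∀ (c : ℂ) g k, H (c • g) k = c * H g k) →
  (∀ g k, H k g = conj (H g k)) → (∀ g, g ≠ 0 → 0 < (H g g).re) →
  ∀ (S : Finset E) (e : E), e ∉ span ℂ (S : Set E) →
    ∃ η : E, H η e = 1 ∧ ∀ f ∈ S, H η f = 0

/-- D2: extension of the form -/
def ClaimD2 : Prop := ∀ (E : Type) [AddCommGroup E] [Module ℂ E] (α : E → ℂ) (h : E → E → ℂ),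
  Good α h → ∀ (m : ℕ → ℕ) (g g' : ℕ → ℕ → E) (a a' : ℕ → ℕ → (ℕ →₀ ℂ)),
  ∃ (α'' : E × (ℕ →₀ ℂ) × (ℕ →₀ ℂ) → ℂ)
    (h'' : E × (ℕ →₀ ℂ) × (ℕ →₀ ℂ) → E × (ℕ →₀ ℂ) × (ℕ →₀ ℂ) → ℂ), Good α'' h'' ∧
    (∀ g, α'' (g, 0, 0) = α g) ∧
    (∀ a, α'' (0, 0, cj a) = conj (α'' (0, a, 0))) ∧
    (∀ g k, h'' (g, 0, 0) (k, 0, 0) = h g k) ∧
    ∀ k, α'' (0, Finsupp.single k 1, 0) =
      ∑ i ∈ range (m k), h'' (g k i, a k i, 0) (g' k i, 0, a' k i)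

/-! ### Partial solutions -/

/-- P1: partial solutions from an abstract space `X` -/
def ClaimP1 : Prop := ∀ (U Z : Type) [NormedAddCommGroup U] [NormedSpace ℂ U]
  [NormedAddCommGroup Z] [NormedSpace ℂ Z] (F : Frame U Z) (X : Type) [AddCommGroup X]
  [Module ℂ X] (Φ : X →ₗ[ℂ] U), Function.Injective Φ →
  ∀ (T : X → X) (α : X → ℂ) (h : X → X → ℂ), (∀ x y, T (x + y) = T x + T y) →
  (∀ (c : ℂ) x, T (c • x) = conj c • T x) → (∀ x, T (T x) = x) → Good α h →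
  (∀ x, α (T x) = conj (α x)) →
  ∀ S : Set X, (∀ g : X, F.π (Φ g) ∈ BB F.b ⊤ → g ∈ span ℂ S) →
  (∀ g ∈ S, ∃ (n : ℕ) (x y : ℕ → X),
    F.π (Φ g) = ∑ i ∈ range n, F.b (Φ (x i)) (Φ (y i)) ∧
    F.π (Φ (T g)) = ∑ i ∈ range n, F.b (Φ (T (y i))) (Φ (T (x i))) ∧
    α g = ∑ i ∈ range n, h (x i) (T (y i))) →
  ∃ Q : Part F, Q.G = LinearMap.range Φ ∧ (∀ x, Q.T (Φ x) = Φ (T x)) ∧
    (∀ x, Q.α (Φ x) = α x) ∧ ∀ x y, Q.h (Φ x) (Φ y) = h x y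

/-- P2: the start -/
def ClaimP2 : Prop := ∀ (U Z : Type) [NormedAddCommGroup U] [NormedSpace ℂ U]
  [NormedAddCommGroup Z] [NormedSpace ℂ Z] (F : Frame U Z),
  ∃ P : Part F, Size P.G ℵ₀ ∧ ∃ g : ℕ → U, (∀ j, g j ∈ P.G) ∧ (∀ j, P.α (g j) = 1) ∧
    Tendsto (fun j => F.π (g j)) atTop (𝓝 0)

/-- P3: one step -/
def ClaimP3 : Prop := ∀ (U Z : Type) [NormedAddCommGroup U] [NormedSpace ℂ U]
  [NormedAddCommGroup Z] [NormedSpace ℂ Z] (F : Frame U Z) (P : Part F) (κ : Cardinal.{0}),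
  κ < 𝔠 → Size P.G κ → ∀ u : U, ∃ Q : Part F, P.Ext Q ∧ u ∈ Q.G ∧ Size Q.G (κ + ℵ₀)

/-- P4: chains -/
def ClaimP4 : Prop := ∀ (U Z : Type) [NormedAddCommGroup U] [NormedSpace ℂ U]
  [NormedAddCommGroup Z] [NormedSpace ℂ Z] (F : Frame U Z) (ι : Type) [Nonempty ι]
  (P : ι → Part F), (∀ i j, (P i).Ext (P j) ∨ (P j).Ext (P i)) →
  ∃ Q : Part F, (∀ i, (P i).Ext Q) ∧ ∀ κ : ι → Cardinal.{0}, (∀ i, Size (P i).G (κ i)) →
    Size Q.G (Cardinal.sum κ)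

/-- P5: the transfinite argument -/
def ClaimP5 : Prop := ∀ (Ω : Type) [LinearOrder Ω] [WellFoundedLT Ω],
  (∀ w : Ω, #(Set.Iio w) < 𝔠) → ∀ (X : Type) (ext : X → X → Prop), (∀ x, ext x x) →
  (∀ x y z, ext x y → ext y z → ext x z) → ∀ (size : X → Cardinal.{0} → Prop),
  (∀ x κ μ, κ ≤ μ → size x κ → size x μ) → ∀ (has : X → Ω → Prop),
  (∀ x y w, ext x y → has x w → has y w) → ∀ x₀ : X, size x₀ ℵ₀ →
  (∀ x κ w, κ < 𝔠 → size x κ → ∃ y, ext x y ∧ has y w ∧ size y (κ + ℵ₀)) →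
  (∀ (ι : Type) [Nonempty ι] (f : ι → X), (∀ i j, ext (f i) (f j) ∨ ext (f j) (f i)) →
    ∃ y, (∀ i, ext (f i) y) ∧ ∀ κ : ι → Cardinal.{0}, (∀ i, size (f i) (κ i)) →
      size y (Cardinal.sum κ)) →
  ∃ y, ext x₀ y ∧ ∀ w, has y w

/-- P6: the total solution -/
def ClaimP6 : Prop := ∀ (U Z : Type) [NormedAddCommGroup U] [NormedSpace ℂ U]
  [NormedAddCommGroup Z] [NormedSpace ℂ Z] (F : Frame U Z),
  ∃ P : Part F, P.G = ⊤ ∧ ∃ g : ℕ → U, (∀ j, P.α (g j) = 1) ∧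
    Tendsto (fun j => F.π (g j)) atTop (𝓝 0)

/-! ### The algebra -/

/-- A1: the algebra of a bilinear map -/
def ClaimA1 : Prop := ∀ (E Z : Type) [NormedAddCommGroup E] [NormedSpace ℂ E] [CompleteSpace E]
    [NormedAddCommGroup Z] [NormedSpace ℂ Z] [CompleteSpace Z]
    [TopologicalSpace.SeparableSpace E] [TopologicalSpace.SeparableSpace Z] (B : E → E → Z),
    (∀ x y z, B (x + y) z = B x z + B y z) → (∀ x y z, B x (y + z) = B x y + B x z) →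
    (∀ (c : ℂ) x y, B (c • x) y = c • B x y) → (∀ (c : ℂ) x y, B x (c • y) = c • B x y) →
    (∀ x y, ‖B x y‖ ≤ ‖x‖ * ‖y‖) → ∀ (jE : E → E) (jZ : Z → Z),
    (∀ x y, jE (x + y) = jE x + jE y) → (∀ (c : ℂ) x, jE (c • x) = conj c • jE x) →
    (∀ x, jE (jE x) = x) →
    (∀ x y, jZ (x + y) = jZ x + jZ y) → (∀ (c : ℂ) x, jZ (c • x) = conj c • jZ x) →
    (∀ x, jZ (jZ x) = x) →
    (∀ x y, jZ (B x y) = B (jE y) (jE x)) →
    Submodule.span ℂ {z : Z | ∃ x y : E, z = B x y} = ⊤ →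
    ∀ (f : Z →ₗ[ℂ] ℂ), (∀ x, 0 ≤ (f (B (jE x) x)).re ∧ (f (B (jE x) x)).im = 0) →
    ¬ Continuous f →
    ∃ (A : Type) (_ : NonUnitalNormedRing A) (_ : NormedSpace ℂ A) (_ : IsScalarTower ℂ A A)
      (_ : SMulCommClass ℂ A A) (_ : CompleteSpace A) (_ : StarRing A) (_ : StarModule ℂ A)
      (_ : TopologicalSpace.SeparableSpace A), Sq A = ⊤ ∧
      ∃ f : A →ₗ[ℂ] ℂ, IsPositive f ∧ ¬ Continuous f

/-- A2: the algebra of a total solution -/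
def ClaimA2 : Prop := ∀ (U Z : Type) [NormedAddCommGroup U] [NormedSpace ℂ U] [CompleteSpace U]
  [NormedAddCommGroup Z] [NormedSpace ℂ Z] [CompleteSpace Z]
  [TopologicalSpace.SeparableSpace U] [TopologicalSpace.SeparableSpace Z] (F : Frame U Z)
  (P : Part F), P.G = ⊤ → ∀ g : ℕ → U, (∀ j, P.α (g j) = 1) →
    Tendsto (fun j => F.π (g j)) atTop (𝓝 0) →
    ∃ (A : Type) (_ : NonUnitalNormedRing A) (_ : NormedSpace ℂ A) (_ : IsScalarTower ℂ A A)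
      (_ : SMulCommClass ℂ A A) (_ : CompleteSpace A) (_ : StarRing A) (_ : StarModule ℂ A)
      (_ : TopologicalSpace.SeparableSpace A), Sq A = ⊤ ∧
      ∃ f : A →ₗ[ℂ] ℂ, IsPositive f ∧ ¬ Continuous f

/-- A3: the result -/
def ClaimA3 : Prop := ∃ (A : Type) (_ : NonUnitalNormedRing A) (_ : NormedSpace ℂ A)
      (_ : IsScalarTower ℂ A A) (_ : SMulCommClass ℂ A A) (_ : CompleteSpace A)
      (_ : StarRing A) (_ : StarModule ℂ A) (_ : TopologicalSpace.SeparableSpace A),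
      Sq A = ⊤ ∧ ∃ f : A →ₗ[ℂ] ℂ, IsPositive f ∧ ¬ Continuous f

end Pool.Agent.Work.MP_10b086_an.Wild
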