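import Pool.Agent.Work.MP_10b086_an.Wild.Stmts

/-!
# A1: the algebra `ℂ × E × E × Z` with the sup norm
-/

open Cardinal Submodule Finset Filter Topology
open scoped ComplexConjugate

namespace Pool.Agent.Work.MP_10b086_an.Wild

namespace A1

noncomputable section

/-- The data of the construction. -/
structure Dat (E Z : Type) [NormedAddCommGroup E] [NormedSpace ℂ E]
    [NormedAddCommGroup Z] [NormedSpace ℂ Z] where
  /-- the bilinear map -/
  B : E → E → Z
  ha₁ : ∀ x y z, B (x + y) z = B x z + B y z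
  ha₂ : ∀ x y z, B x (y + z) = B x y + B x z
  hs₁ : ∀ (c : ℂ) x y, B (c • x) y = c • B x y
  hs₂ : ∀ (c : ℂ) x y, B x (c • y) = c • B x y
  hB : ∀ x y, ‖B x y‖ ≤ ‖x‖ * ‖y‖
  /-- the involution of `E` -/
  jE : E → E
  /-- the involution of `Z` -/
  jZ : Z → Z
  hEa : ∀ x y, jE (x + y) = jE x + jE y
  hEs : ∀ (c : ℂ) x, jE (c • x) = (starRingEnd ℂ) c • jE x
  hEi : ∀ x, jE (jE x) = x
  hZa : ∀ x y, jZ (x + y) = jZ x + jZ y
  hZs : ∀ (c : ℂ) x, jZ (c • x) = (starRingEnd ℂ) c • jZ x
  hZi : ∀ x, jZ (jZ x) = x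
  hj : ∀ x y, jZ (B x y) = B (jE y) (jE x)

variable {E Z : Type} [NormedAddCommGroup E] [NormedSpace ℂ E]
    [NormedAddCommGroup Z] [NormedSpace ℂ Z]

/-- The carrier of the algebra. -/
def Alg (_ : Dat E Z) : Type := ℂ × E × E × Z

instance (D : Dat E Z) : NormedAddCommGroup (Alg D) :=
  inferInstanceAs (NormedAddCommGroup (ℂ × E × E × Z))

instance (D : Dat E Z) : NormedSpace ℂ (Alg D) :=
  inferInstanceAs (NormedSpace ℂ (ℂ × E × E × Z))

instance (D : Dat E Z) [CompleteSpace E] [CompleteSpace Z] : CompleteSpace (Alg D) :=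
  inferInstanceAs (CompleteSpace (ℂ × E × E × Z))

instance (D : Dat E Z) [TopologicalSpace.SeparableSpace E] [TopologicalSpace.SeparableSpace Z] :
    TopologicalSpace.SeparableSpace (Alg D) :=
  inferInstanceAs (TopologicalSpace.SeparableSpace (ℂ × E × E × Z))

namespace Alg

variable {D : Dat E Z}

/-- constructor -/
def mk (l : ℂ) (e u : E) (z : Z) : Alg D := ((l, e, u, z) : ℂ × E × E × Z)

/-- scalar coordinate -/
def l (x : Alg D) : ℂ := Prod.fst (show ℂ × E × E × Z from x)

/-- remaining coordinates -/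
def r1 (x : Alg D) : E × E × Z := Prod.snd (show ℂ × E × E × Z from x)

/-- first vector coordinate -/
def e (x : Alg D) : E := (r1 x).1

/-- remaining coordinates -/
def r2 (x : Alg D) : E × Z := (r1 x).2

/-- second vector coordinate -/
def u (x : Alg D) : E := (r2 x).1

/-- third vector coordinate -/
def z (x : Alg D) : Z := (r2 x).2

@[simp] theorem l_mk (l : ℂ) (e u : E) (z : Z) : (mk l e u z : Alg D).l = l := rfl
@[simp] theorem e_mk (l : ℂ) (e u : E) (z : Z) : (mk l e u z : Alg D).e = e := rfl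
@[simp] theorem u_mk (l : ℂ) (e u : E) (z : Z) : (mk l e u z : Alg D).u = u := rfl
@[simp] theorem z_mk (l : ℂ) (e u : E) (z : Z) : (mk l e u z : Alg D).z = z := rfl

theorem mk_eta (x : Alg D) : mk x.l x.e x.u x.z = x := rfl

theorem ext {x y : Alg D} (h1 : x.l = y.l) (h2 : x.e = y.e) (h3 : x.u = y.u) (h4 : x.z = y.z) :
    x = y := by
  rw [← mk_eta x, ← mk_eta y, h1, h2, h3, h4]

@[simp] theorem l_add (x y : Alg D) : (x + y).l = x.l + y.l := rfl
@[simp] theorem e_add (x y : Alg D) : (x + y).e = x.e + y.e := rfl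
@[simp] theorem u_add (x y : Alg D) : (x + y).u = x.u + y.u := rfl
@[simp] theorem z_add (x y : Alg D) : (x + y).z = x.z + y.z := rfl
@[simp] theorem l_smul (c : ℂ) (x : Alg D) : (c • x).l = c * x.l := rfl
@[simp] theorem e_smul (c : ℂ) (x : Alg D) : (c • x).e = c • x.e := rfl
@[simp] theorem u_smul (c : ℂ) (x : Alg D) : (c • x).u = c • x.u := rfl
@[simp] theorem z_smul (c : ℂ) (x : Alg D) : (c • x).z = c • x.z := rfl
@[simp] theorem l_zero : (0 : Alg D).l = 0 := rfl
@[simp] theorem e_zero : (0 : Alg D).e = 0 := rfl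
@[simp] theorem u_zero : (0 : Alg D).u = 0 := rfl
@[simp] theorem z_zero : (0 : Alg D).z = 0 := rfl

theorem norm_eq (x : Alg D) : ‖x‖ = max ‖x.l‖ (max ‖x.e‖ (max ‖x.u‖ ‖x.z‖)) := rfl

theorem l_le (x : Alg D) : ‖x.l‖ ≤ ‖x‖ := by
  rw [norm_eq]; exact le_max_left _ _

theorem e_le (x : Alg D) : ‖x.e‖ ≤ ‖x‖ := by
  rw [norm_eq]; exact le_trans (le_max_left _ _) (le_max_right _ _)

theorem u_le (x : Alg D) : ‖x.u‖ ≤ ‖x‖ := by
  rw [norm_eq]
  exact le_trans (le_max_left _ _) (le_trans (le_max_right _ _) (le_max_right _ _))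

theorem z_le (x : Alg D) : ‖x.z‖ ≤ ‖x‖ := by
  rw [norm_eq]
  exact le_trans (le_max_right _ _) (le_trans (le_max_right _ _) (le_max_right _ _))

theorem norm_le {x : Alg D} {r : ℝ} (h1 : ‖x.l‖ ≤ r) (h2 : ‖x.e‖ ≤ r) (h3 : ‖x.u‖ ≤ r)
    (h4 : ‖x.z‖ ≤ r) : ‖x‖ ≤ r := by
  rw [norm_eq]
  exact max_le h1 (max_le h2 (max_le h3 h4))

theorem B_zero_left (D : Dat E Z) (x : E) : D.B 0 x = 0 := by
  have := D.hs₁ 0 0 x
  simpa using this

theorem B_zero_right (D : Dat E Z) (x : E) : D.B x 0 = 0 := by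
  have := D.hs₂ 0 x 0
  simpa using this

theorem jE_zero (D : Dat E Z) : D.jE 0 = 0 := by
  have := D.hEs 0 0
  simpa using this

instance : Mul (Alg D) :=
  ⟨fun x y => mk (x.l * y.l) (x.l • y.e) (y.l • x.u) (D.B x.u y.e)⟩

@[simp] theorem l_mul (x y : Alg D) : (x * y).l = x.l * y.l := rfl
@[simp] theorem e_mul (x y : Alg D) : (x * y).e = x.l • y.e := rfl
@[simp] theorem u_mul (x y : Alg D) : (x * y).u = y.l • x.u := rfl
@[simp] theorem z_mul (x y : Alg D) : (x * y).z = D.B x.u y.e := rfl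

instance instRing : NonUnitalNormedRing (Alg D) :=
  { (inferInstance : NormedAddCommGroup (Alg D)) with
    mul := fun x y => x * y
    left_distrib := fun a b c => by
      apply ext <;> simp [mul_add, add_smul, D.ha₂]
    right_distrib := fun a b c => by
      apply ext <;> simp [add_mul, add_smul, D.ha₁]
    zero_mul := fun a => by
      apply ext <;> simp [B_zero_left]
    mul_zero := fun a => by
      apply ext <;> simp [B_zero_right]
    mul_assoc := fun a b c => by
      apply ext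
      · simp [mul_assoc]
      · simp [mul_smul]
      · simp only [u_mul, l_mul, mul_smul]
        rw [smul_comm]
      · simp [D.hs₁, D.hs₂]
    norm_mul_le := fun a b => by
      apply norm_le
      · rw [l_mul, norm_mul]
        exact mul_le_mul (l_le a) (l_le b) (norm_nonneg _) (norm_nonneg _)
      · rw [e_mul, norm_smul]
        exact mul_le_mul (l_le a) (e_le b) (norm_nonneg _) (norm_nonneg _)
      · rw [u_mul, norm_smul, mul_comm]
        exact mul_le_mul (u_le a) (l_le b) (norm_nonneg _) (norm_nonneg _)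
      · rw [z_mul]
        exact (D.hB _ _).trans (mul_le_mul (u_le a) (e_le b) (norm_nonneg _) (norm_nonneg _)) }

instance : StarRing (Alg D) where
  star x := mk ((starRingEnd ℂ) x.l) (D.jE x.u) (D.jE x.e) (D.jZ x.z)
  star_involutive x := by
    apply ext
    · exact Complex.conj_conj _
    · exact D.hEi _
    · exact D.hEi _
    · exact D.hZi _
  star_mul x y := by
    apply ext
    · change (starRingEnd ℂ) (x.l * y.l) = (starRingEnd ℂ) y.l * (starRingEnd ℂ) x.l
      rw [map_mul, mul_comm]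
    · change D.jE (y.l • x.u) = (starRingEnd ℂ) y.l • D.jE x.u
      exact D.hEs _ _
    · change D.jE (x.l • y.e) = (starRingEnd ℂ) x.l • D.jE y.e
      exact D.hEs _ _
    · change D.jZ (D.B x.u y.e) = D.B (D.jE y.e) (D.jE x.u)
      exact D.hj _ _
  star_add x y := by
    apply ext
    · exact map_add _ _ _
    · exact D.hEa _ _
    · exact D.hEa _ _
    · exact D.hZa _ _

@[simp] theorem l_star (x : Alg D) : (star x).l = (starRingEnd ℂ) x.l := rfl
@[simp] theorem e_star (x : Alg D) : (star x).e = D.jE x.u := rfl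
@[simp] theorem u_star (x : Alg D) : (star x).u = D.jE x.e := rfl
@[simp] theorem z_star (x : Alg D) : (star x).z = D.jZ x.z := rfl

instance : StarModule ℂ (Alg D) where
  star_smul c x := by
    apply ext
    · change (starRingEnd ℂ) (c * x.l) = (starRingEnd ℂ) c * (starRingEnd ℂ) x.l
      exact map_mul _ _ _
    · exact D.hEs _ _
    · exact D.hEs _ _
    · exact D.hZs _ _

instance : IsScalarTower ℂ (Alg D) (Alg D) where
  smul_assoc c x y := by
    apply ext
    · simp [mul_assoc]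
    · simp [mul_smul]
    · simp only [smul_eq_mul, u_mul, u_smul]
      rw [smul_comm]
    · simp [D.hs₁]

instance : SMulCommClass ℂ (Alg D) (Alg D) where
  smul_comm c x y := by
    apply ext
    · simp [mul_left_comm]
    · simp only [smul_eq_mul, e_mul, e_smul]
      rw [smul_comm]
    · simp [mul_smul]
    · simp [D.hs₂]

/-- the inclusion of `Z` -/
def incl (D : Dat E Z) : Z →ₗ[ℂ] Alg D where
  toFun z := mk 0 0 0 z
  map_add' x y := by apply ext <;> simp
  map_smul' c x := by apply ext <;> simp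

/-- the projection to `Z` -/
def proj (D : Dat E Z) : Alg D →ₗ[ℂ] Z where
  toFun x := x.z
  map_add' _ _ := rfl
  map_smul' _ _ := rfl

theorem norm_incl (z : Z) : ‖incl D z‖ = ‖z‖ := by
  rw [norm_eq]
  simp [incl]

theorem continuous_incl : Continuous (incl D) :=
  (AddMonoidHomClass.isometry_of_norm (incl D) norm_incl).continuous

theorem span_eq (hspan : Submodule.span ℂ {z : Z | ∃ x y : E, z = D.B x y} = ⊤) :
    Submodule.span ℂ {x : Alg D | ∃ a b : Alg D, x = a * b} = ⊤ := by
  rw [eq_top_iff]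
  intro x _
  have hx : x = (mk 1 0 0 0 : Alg D) * mk x.l x.e 0 0 + mk 0 0 x.u 0 * (mk 1 0 0 0 : Alg D) +
      incl D x.z := by
    apply ext <;> simp [incl, B_zero_left, B_zero_right]
  rw [hx]
  refine Submodule.add_mem _ (Submodule.add_mem _ ?_ ?_) ?_
  · exact Submodule.subset_span ⟨_, _, rfl⟩
  · exact Submodule.subset_span ⟨_, _, rfl⟩
  · have h1 : x.z ∈ Submodule.span ℂ {z : Z | ∃ x y : E, z = D.B x y} := by
      rw [hspan]; trivial
    have h2 : Submodule.span ℂ {z : Z | ∃ x y : E, z = D.B x y} ≤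
        (Submodule.span ℂ {x : Alg D | ∃ a b : Alg D, x = a * b}).comap (incl D) := by
      rw [Submodule.span_le]
      rintro _ ⟨x, y, rfl⟩
      refine Submodule.subset_span ⟨mk 0 0 x 0, mk 0 y 0 0, ?_⟩
      apply ext <;> simp [incl]
    exact h2 h1

end Alg

end

end A1

open A1 in
theorem claimA1 : ClaimA1 := by
  intro E Z _ _ _ _ _ _ _ _ B ha₁ ha₂ hs₁ hs₂ hB jE jZ hEa hEs hEi hZa hZs hZi hj hspan f hf hdisc
  let D : Dat E Z :=
    { B := B, ha₁ := ha₁, ha₂ := ha₂, hs₁ := hs₁, hs₂ := hs₂, hB := hB, jE := jE, jZ := jZ,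
      hEa := hEa, hEs := hEs, hEi := hEi, hZa := hZa, hZs := hZs, hZi := hZi, hj := hj }
  refine ⟨Alg D, inferInstance, inferInstance, inferInstance, inferInstance, inferInstance,
    inferInstance, inferInstance, inferInstance, Alg.span_eq hspan, f ∘ₗ Alg.proj D, ?_, ?_⟩
  · intro a
    exact hf a.e
  · intro hc
    apply hdisc
    have h1 : (f : Z → ℂ) = (f ∘ₗ Alg.proj D) ∘ Alg.incl D := rfl
    rw [h1]
    exact hc.comp Alg.continuous_incl

end Pool.Agent.Work.MP_10b086_an.Wild
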