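import Pool.Agent.Work.MP_10b086_an.Wild.Stmts

/-!
# Item A2: the algebra of a total solution
-/

open Cardinal Submodule Finset Filter Topology
open scoped ComplexConjugate

namespace Pool.Agent.Work.MP_10b086_an.Wild

namespace ItemA2

section

variable {U Z : Type} [NormedAddCommGroup U] [NormedSpace ℂ U] [NormedAddCommGroup Z]
  [NormedSpace ℂ Z] {F : Frame U Z} (P : Part F) (hG : P.G = ⊤)

theorem pi_surj (F : Frame U Z) : Function.Surjective F.π := by
  intro z
  obtain ⟨Y, hY⟩ := F.sys (fun _ => z) (fun _ => 0) (fun _ => 0) (fun _ _ => 0) (fun _ _ => 0)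
    (fun _ _ => 0) (fun _ _ => 0)
  refine ⟨Y 0, ?_⟩
  have := (hY 0).1
  simpa using this

include hG

theorem mem (g : U) : g ∈ P.G := by rw [hG]; trivial

theorem T_add (x y : U) : P.T (x + y) = P.T x + P.T y :=
  P.T_add x (mem P hG x) y (mem P hG y)

theorem T_smul (c : ℂ) (x : U) : P.T (c • x) = conj c • P.T x := P.T_smul c x (mem P hG x)

theorem T_T (x : U) : P.T (P.T x) = x := P.T_T x (mem P hG x)

theorem T_neg (x : U) : P.T (-x) = -P.T x := by
  have := T_smul P hG (-1) x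
  simpa using this

theorem T_zero : P.T 0 = 0 := by
  have := T_smul P hG 0 0
  simpa using this

theorem T_eq_zero {x : U} (h : P.T x = 0) : x = 0 := by
  rw [← T_T P hG x, h, T_zero P hG]

theorem al_add (x y : U) : P.α (x + y) = P.α x + P.α y :=
  P.α_add x (mem P hG x) y (mem P hG y)

theorem al_smul (c : ℂ) (x : U) : P.α (c • x) = c * P.α x := P.α_smul c x (mem P hG x)

theorem al_neg (x : U) : P.α (-x) = -P.α x := by
  have := al_smul P hG (-1) x
  simpa using this

theorem al_zero : P.α 0 = 0 := by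
  have := al_smul P hG 0 0
  simpa using this

theorem piT_zero {x : U} (h : F.π x = 0) : F.π (P.T x) = 0 := by
  have := P.star x (mem P hG x) 0 (fun _ => 0) (fun _ => 0) (fun _ => mem P hG _)
    (fun _ => mem P hG _) (by simpa using h)
  simpa using this

theorem piT_congr {x y : U} (h : F.π x = F.π y) : F.π (P.T x) = F.π (P.T y) := by
  have h1 : F.π (x + -y) = 0 := by rw [map_add, map_neg, h, add_neg_cancel]
  have h2 := piT_zero P hG h1
  rw [T_add P hG, T_neg P hG, map_add, map_neg] at h2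
  exact add_neg_eq_zero.1 h2

theorem al_pi_zero {x : U} (h : F.π x = 0) : P.α x = 0 := by
  have := P.beta x (mem P hG x) 0 (fun _ => 0) (fun _ => 0) (fun _ => mem P hG _)
    (fun _ => mem P hG _) (by simpa using h)
  simpa using this

theorem al_congr {x y : U} (h : F.π x = F.π y) : P.α x = P.α y := by
  have h1 : F.π (x + -y) = 0 := by rw [map_add, map_neg, h, add_neg_cancel]
  have h2 := al_pi_zero P hG h1
  rw [al_add P hG, al_neg P hG] at h2
  exact add_neg_eq_zero.1 h2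

theorem star1 {x u w : U} (h : F.π x = F.b u w) : F.π (P.T x) = F.b (P.T w) (P.T u) := by
  have := P.star x (mem P hG x) 1 (fun _ => u) (fun _ => w) (fun _ => mem P hG _)
    (fun _ => mem P hG _) (by simpa using h)
  simpa using this

theorem beta1 {x u w : U} (h : F.π x = F.b u w) : P.α x = P.h u (P.T w) := by
  have := P.beta x (mem P hG x) 1 (fun _ => u) (fun _ => w) (fun _ => mem P hG _)
    (fun _ => mem P hG _) (by simpa using h)
  simpa using this

theorem h_im (x : U) : (P.h x x).im = 0 := by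
  have := P.h_symm x (mem P hG x) x (mem P hG x)
  have h2 := congrArg Complex.im this
  rw [Complex.conj_im] at h2
  linarith

theorem h_ge (x : U) : ‖P.α x‖ ^ 2 ≤ (P.h x x).re := by
  by_cases hx : x = 0
  · subst hx
    have h1 : P.h 0 0 = 0 := by
      have := P.h_smul 0 0 (mem P hG 0) 0 (mem P hG 0)
      simpa using this
    rw [h1, al_zero P hG]
    simp
  · exact (P.h_pos x (mem P hG x) hx).le

end

section

variable {U Z : Type} [NormedAddCommGroup U] [NormedSpace ℂ U] [NormedAddCommGroup Z]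
  [NormedSpace ℂ Z] {F : Frame U Z} (P : Part F)

/-- a right inverse of the projection -/
noncomputable def sec (F : Frame U Z) : Z → U := Function.surjInv (pi_surj F)

theorem pi_sec (F : Frame U Z) (z : Z) : F.π (sec F z) = z :=
  Function.surjInv_eq (pi_surj F) z

/-- the involution on `Z` -/
noncomputable def jz (z : Z) : Z := F.π (P.T (sec F z))

/-- the functional on `Z` -/
noncomputable def af (z : Z) : ℂ := P.α (sec F z)

/-- the product -/
noncomputable def mB (F : Frame U Z) (x y : ℂ × U) : ℂ × Z :=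
  (1 / 3 : ℂ) • (x.1 * y.1, x.1 • F.π y.2 + y.1 • F.π x.2 + F.b x.2 y.2)

/-- the involution on the first space -/
noncomputable def jE (x : ℂ × U) : ℂ × U := (conj x.1, P.T x.2)

/-- the involution on the second space -/
noncomputable def jZ (x : ℂ × Z) : ℂ × Z := (conj x.1, jz P x.2)

variable (hG : P.G = ⊤)

include hG

theorem jz_pi (u : U) : jz P (F.π u) = F.π (P.T u) :=
  piT_congr P hG (pi_sec F (F.π u))

theorem af_pi (u : U) : af P (F.π u) = P.α u := al_congr P hG (pi_sec F (F.π u))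

theorem jz_add (z z' : Z) : jz P (z + z') = jz P z + jz P z' := by
  obtain ⟨u, rfl⟩ := pi_surj F z
  obtain ⟨v, rfl⟩ := pi_surj F z'
  rw [← map_add, jz_pi P hG, jz_pi P hG, jz_pi P hG, T_add P hG, map_add]

theorem jz_smul (c : ℂ) (z : Z) : jz P (c • z) = conj c • jz P z := by
  obtain ⟨u, rfl⟩ := pi_surj F z
  rw [← map_smul, jz_pi P hG, jz_pi P hG, T_smul P hG, map_smul]

theorem jz_jz (z : Z) : jz P (jz P z) = z := by
  obtain ⟨u, rfl⟩ := pi_surj F z
  rw [jz_pi P hG, jz_pi P hG, T_T P hG]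

theorem jz_b (u w : U) : jz P (F.b u w) = F.b (P.T w) (P.T u) := by
  obtain ⟨x, hx⟩ := pi_surj F (F.b u w)
  rw [← hx, jz_pi P hG]
  exact star1 P hG hx

theorem af_b (u w : U) : af P (F.b u w) = P.h u (P.T w) := by
  obtain ⟨x, hx⟩ := pi_surj F (F.b u w)
  rw [← hx, af_pi P hG]
  exact beta1 P hG hx

theorem af_add (z z' : Z) : af P (z + z') = af P z + af P z' := by
  obtain ⟨u, rfl⟩ := pi_surj F z
  obtain ⟨v, rfl⟩ := pi_surj F z'
  rw [← map_add, af_pi P hG, af_pi P hG, af_pi P hG, al_add P hG]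

theorem af_smul (c : ℂ) (z : Z) : af P (c • z) = c * af P z := by
  obtain ⟨u, rfl⟩ := pi_surj F z
  rw [← map_smul, af_pi P hG, af_pi P hG, al_smul P hG]

/-- the functional -/
noncomputable def ff : (ℂ × Z) →ₗ[ℂ] ℂ where
  toFun x := 3 * (x.1 + af P x.2)
  map_add' x y := by
    simp only [Prod.fst_add, Prod.snd_add, af_add P hG]
    ring
  map_smul' c x := by
    simp only [Prod.smul_fst, Prod.smul_snd, af_smul P hG, smul_eq_mul, RingHom.id_apply]
    ring

omit hG in
theorem ff_apply (hG : P.G = ⊤) (x : ℂ × Z) : ff P hG x = 3 * (x.1 + af P x.2) := rfl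

theorem key (x : ℂ × U) :
    ff P hG (mB F (jE P x) x) =
      (conj x.1 * x.1 + (conj x.1 * P.α x.2 + conj (conj x.1 * P.α x.2))) +
        P.h (P.T x.2) (P.T x.2) := by
  have h1 : P.α (P.T x.2) = conj (P.α x.2) := P.α_T x.2 (mem P hG x.2)
  rw [mB, map_smul, ff_apply P hG]
  simp only [jE, af_add P hG, af_smul P hG, af_pi P hG, af_b P hG, h1, map_mul,
    Complex.conj_conj, smul_eq_mul]
  ring

end

end ItemA2

open ItemA2 in
theorem claimA2 (h : ClaimA1) (_h1 : ClaimL1) : ClaimA2 := by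
  intro U Z _ _ _ _ _ _ _ _ F P hG g hg hlim
  refine h (ℂ × U) (ℂ × Z) (mB F) ?_ ?_ ?_ ?_ ?_ (jE P) (jZ P) ?_ ?_ ?_ ?_ ?_ ?_ ?_ ?_
    (ff P hG) ?_ ?_
  · rintro ⟨a, u⟩ ⟨b, v⟩ ⟨c, w⟩
    simp only [mB, map_add, LinearMap.add_apply, ← smul_add, Prod.mk_add_mk]
    congr 2
    · ring
    · module
  · rintro ⟨a, u⟩ ⟨b, v⟩ ⟨c, w⟩
    simp only [mB, map_add, LinearMap.add_apply, ← smul_add, Prod.mk_add_mk]
    congr 2
    · ring
    · module
  · rintro c ⟨a, u⟩ ⟨b, v⟩
    refine Prod.ext ?_ ?_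
    · simp only [mB, Prod.smul_fst, smul_eq_mul]
      ring
    · simp only [mB, Prod.smul_fst, Prod.smul_snd, map_smul, LinearMap.smul_apply]
      module
  · rintro c ⟨a, u⟩ ⟨b, v⟩
    refine Prod.ext ?_ ?_
    · simp only [mB, Prod.smul_fst, smul_eq_mul]
      ring
    · simp only [mB, Prod.smul_fst, Prod.smul_snd, map_smul]
      module
  · rintro ⟨a, u⟩ ⟨b, v⟩
    have hx1 : ‖a‖ ≤ ‖((a, u) : ℂ × U)‖ := norm_fst_le (a, u)
    have hx2 : ‖u‖ ≤ ‖((a, u) : ℂ × U)‖ := norm_snd_le (a, u)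
    have hy1 : ‖b‖ ≤ ‖((b, v) : ℂ × U)‖ := norm_fst_le (b, v)
    have hy2 : ‖v‖ ≤ ‖((b, v) : ℂ × U)‖ := norm_snd_le (b, v)
    set X : ℝ := ‖((a, u) : ℂ × U)‖ with hX
    set Y : ℝ := ‖((b, v) : ℂ × U)‖ with hY
    have hX0 : 0 ≤ X := norm_nonneg _
    have hY0 : 0 ≤ Y := norm_nonneg _
    rw [mB, norm_smul]
    have h3 : ‖(1 / 3 : ℂ)‖ = 1 / 3 := by simp
    rw [h3, Prod.norm_def]
    have hXY : 0 ≤ X * Y := mul_nonneg hX0 hY0
    have e1 : ‖a * b‖ ≤ 3 * (X * Y) := by
      rw [norm_mul]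
      have := mul_le_mul hx1 hy1 (norm_nonneg _) hX0
      linarith
    have e2 : ‖a • F.π v + b • F.π u + F.b u v‖ ≤ 3 * (X * Y) := by
      have f1 : ‖a • F.π v‖ ≤ X * Y := by
        rw [norm_smul]
        exact mul_le_mul hx1 ((F.π_le v).trans hy2) (norm_nonneg _) hX0
      have f2 : ‖b • F.π u‖ ≤ X * Y := by
        rw [norm_smul, mul_comm]
        exact mul_le_mul ((F.π_le u).trans hx2) hy1 (norm_nonneg _) hX0
      have f3 : ‖F.b u v‖ ≤ X * Y :=
        (F.b_le u v).trans (mul_le_mul hx2 hy2 (norm_nonneg _) hX0)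
      calc ‖a • F.π v + b • F.π u + F.b u v‖ ≤ ‖a • F.π v‖ + ‖b • F.π u‖ + ‖F.b u v‖ :=
            norm_add₃_le
        _ ≤ 3 * (X * Y) := by linarith
    have e3 := max_le e1 e2
    calc 1 / 3 * max ‖a * b‖ ‖a • F.π v + b • F.π u + F.b u v‖ ≤ 1 / 3 * (3 * (X * Y)) :=
          mul_le_mul_of_nonneg_left e3 (by norm_num)
      _ = X * Y := by ring
  · rintro ⟨a, u⟩ ⟨b, v⟩
    simp [jE, T_add P hG]
  · rintro c ⟨a, u⟩
    simp [jE, T_smul P hG]
  · rintro ⟨a, u⟩
    simp [jE, T_T P hG]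
  · rintro ⟨a, u⟩ ⟨b, v⟩
    simp [jZ, jz_add P hG]
  · rintro c ⟨a, u⟩
    simp [jZ, jz_smul P hG]
  · rintro ⟨a, u⟩
    simp [jZ, jz_jz P hG]
  · rintro ⟨a, u⟩ ⟨b, v⟩
    have h3 : conj (1 / 3 : ℂ) = 1 / 3 := by
      have := Complex.conj_ofReal (1 / 3)
      push_cast at this
      exact this
    simp only [jZ, jE, mB, Prod.smul_fst, Prod.smul_snd, jz_smul P hG, jz_add P hG,
      jz_pi P hG, jz_b P hG, smul_eq_mul, map_mul, h3, Prod.smul_mk]
    congr 1
    · ring
    · congr 1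
      abel
  · rw [eq_top_iff]
    rintro ⟨c, z⟩ -
    obtain ⟨w, rfl⟩ := pi_surj F z
    have m1 : mB F (1, 0) (1, 0) ∈ Submodule.span ℂ {z : ℂ × Z | ∃ x y, z = mB F x y} :=
      Submodule.subset_span ⟨_, _, rfl⟩
    have m2 : mB F (1, 0) (0, w) ∈ Submodule.span ℂ {z : ℂ × Z | ∃ x y, z = mB F x y} :=
      Submodule.subset_span ⟨_, _, rfl⟩
    have e : ((c, F.π w) : ℂ × Z) = (3 * c) • mB F (1, 0) (1, 0) + (3 : ℂ) • mB F (1, 0) (0, w) := by
      simp only [mB, map_zero, smul_zero, LinearMap.zero_apply, add_zero, zero_add, one_smul,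
        mul_one, mul_zero, zero_smul, Prod.smul_mk, smul_eq_mul, Prod.mk_add_mk]
      congr 1
      · ring
      · rw [smul_smul]; norm_num
    rw [e]
    exact Submodule.add_mem _ (Submodule.smul_mem _ _ m1) (Submodule.smul_mem _ _ m2)
  · rintro ⟨c, u⟩
    rw [key P hG]
    have him := h_im P hG (P.T u)
    have hge := h_ge P hG (P.T u)
    have hal : ‖P.α (P.T u)‖ = ‖P.α u‖ := by
      rw [P.α_T u (mem P hG u), Complex.norm_conj]
    rw [hal] at hge
    have e1 : conj c * c = ((‖c‖ ^ 2 : ℝ) : ℂ) := by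
      rw [Complex.conj_mul']; push_cast; rfl
    have e2 : conj c * P.α u + conj (conj c * P.α u) = ((2 * (conj c * P.α u).re : ℝ) : ℂ) :=
      Complex.add_conj _
    have e3 : |(conj c * P.α u).re| ≤ ‖c‖ * ‖P.α u‖ := by
      calc |(conj c * P.α u).re| ≤ ‖conj c * P.α u‖ := Complex.abs_re_le_norm _
        _ = ‖c‖ * ‖P.α u‖ := by rw [norm_mul, Complex.norm_conj]
    dsimp only
    rw [e1, e2]
    constructor
    · simp only [Complex.add_re, Complex.ofReal_re]
      have := (abs_le.1 e3).1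
      nlinarith [sq_nonneg (‖c‖ - ‖P.α u‖)]
    · simp only [Complex.add_im, Complex.ofReal_im, him]
      norm_num
  · intro hc
    have h1 : Tendsto (fun j => ff P hG ((0 : ℂ), F.π (g j))) atTop (𝓝 (ff P hG 0)) := by
      refine (hc.tendsto 0).comp ?_
      have h0 : (0 : ℂ × Z) = ((0 : ℂ), (0 : Z)) := rfl
      rw [h0]
      exact (tendsto_const_nhds).prodMk_nhds hlim
    have h2 : (fun j => ff P hG ((0 : ℂ), F.π (g j))) = fun _ => (3 : ℂ) := by
      funext j
      rw [ff_apply P hG, af_pi P hG, hg j]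
      norm_num
    rw [h2, map_zero] at h1
    have h3 := tendsto_nhds_unique h1 tendsto_const_nhds
    norm_num at h3

end Pool.Agent.Work.MP_10b086_an.Wild
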