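import Pool.Agent.Work.MP_10b086_an.Wild.Stmts

/-!
# Item C4: a family of diagonal elements indexed by the continuum
-/

open Cardinal Submodule Finset Filter Topology
open scoped ComplexConjugate

namespace Pool.Agent.Work.MP_10b086_an.Wild

namespace C4

theorem mem_diag (t : Set.Ioo (0 : ℝ) (1 / 2)) :
    Memℓp (fun p : ℕ × ℕ => if p.1 = p.2 then (((t : ℝ) ^ p.1 : ℝ) : ℂ) else 0) 1 := by
  rw [memℓp_gen_iff (by norm_num)]
  simp only [ENNReal.toReal_one, Real.rpow_one]
  have hs : Summable (fun n : ℕ => ((t : ℝ) ^ n)) :=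
    summable_geometric_of_lt_one t.2.1.le (by have := t.2.2; linarith)
  have hinj : Function.Injective (fun n : ℕ => (n, n)) := fun a b h => (Prod.mk.inj h).1
  rw [← Function.Injective.summable_iff hinj]
  · convert hs using 1
    funext n
    simp [abs_of_pos t.2.1]
  · rintro ⟨a, b⟩ h
    have hab : a ≠ b := by
      rintro rfl
      exact h ⟨a, rfl⟩
    simp [hab]

/-- the family -/
noncomputable def y (t : Set.Ioo (0 : ℝ) (1 / 2)) : ZZ := ⟨_, mem_diag t⟩

theorem y_apply (t : Set.Ioo (0 : ℝ) (1 / 2)) (n k : ℕ) :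
    y t (n, k) = if n = k then (((t : ℝ) ^ n : ℝ) : ℂ) else 0 := rfl

theorem lc_apply (a : Set.Ioo (0 : ℝ) (1 / 2) →₀ ℂ) (n : ℕ) :
    (Finsupp.linearCombination ℂ y a) (n, n) = ∑ t ∈ a.support, a t * (((t : ℝ) ^ n : ℝ) : ℂ) := by
  rw [Finsupp.linearCombination_apply, Finsupp.sum]
  have : ∀ (s : Finset (Set.Ioo (0 : ℝ) (1 / 2))),
      (∑ t ∈ s, a t • y t : ZZ) (n, n) = ∑ t ∈ s, a t * (((t : ℝ) ^ n : ℝ) : ℂ) := by
    intro s
    classical
    induction s using Finset.induction_on with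
    | empty => simp
    | insert t s ht ih =>
      rw [Finset.sum_insert ht, Finset.sum_insert ht, ← ih]
      have : (a t • y t + ∑ t ∈ s, a t • y t : ZZ) (n, n) =
          a t * y t (n, n) + (∑ t ∈ s, a t • y t : ZZ) (n, n) := rfl
      rw [this, y_apply, if_pos rfl]
  exact this _

end C4

theorem claimC4 : ClaimC4 := by
  classical
  refine ⟨C4.y, fun t n k hnk => by rw [C4.y_apply, if_neg hnk], ?_⟩
  intro a hfin
  by_contra ha
  have hne : a.support.Nonempty := Finsupp.support_nonempty_iff.mpr ha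
  obtain ⟨t0, ht0, hmax⟩ := a.support.exists_max_image (fun t => (t : ℝ)) hne
  have ht0pos : (0 : ℝ) < t0 := t0.2.1
  -- the normalised sequence tends to `a t0`
  have hlim : Tendsto (fun n : ℕ => ∑ t ∈ a.support, a t * ((((t : ℝ) / t0) ^ n : ℝ) : ℂ)) atTop
      (𝓝 (∑ t ∈ a.support, a t * (if t = t0 then 1 else 0))) := by
    apply tendsto_finsetSum
    intro t ht
    apply Tendsto.const_mul
    by_cases h : t = t0
    · subst h
      rw [if_pos rfl]
      have : (fun n : ℕ => ((((t : ℝ) / t) ^ n : ℝ) : ℂ)) = fun _ => 1 := by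
        funext n
        rw [div_self ht0pos.ne', one_pow]
        simp
      rw [this]
      exact tendsto_const_nhds
    · rw [if_neg h]
      have h1 : (t : ℝ) < t0 := lt_of_le_of_ne (hmax t ht) (fun h2 => h (Subtype.ext h2))
      have h2 : Tendsto (fun n : ℕ => ((t : ℝ) / t0) ^ n) atTop (𝓝 0) :=
        tendsto_pow_atTop_nhds_zero_of_lt_one (div_nonneg t.2.1.le ht0pos.le)
          ((div_lt_one ht0pos).mpr h1)
      have h3 := (Complex.continuous_ofReal.tendsto 0).comp h2
      rw [Complex.ofReal_zero] at h3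
      exact h3
  have hval : ∑ t ∈ a.support, a t * (if t = t0 then (1 : ℂ) else 0) = a t0 := by
    simp only [mul_ite, mul_one, mul_zero]
    rw [Finset.sum_ite_eq' a.support t0, if_pos ht0]
  rw [hval] at hlim
  have hat0 : a t0 ≠ 0 := Finsupp.mem_support_iff.mp ht0
  have hev : ∀ᶠ n in atTop, (Finsupp.linearCombination ℂ C4.y a) (n, n) ≠ 0 := by
    filter_upwards [hlim.eventually_ne hat0] with n hn h0
    apply hn
    rw [C4.lc_apply] at h0
    have : ∑ t ∈ a.support, a t * ((((t : ℝ) / t0) ^ n : ℝ) : ℂ) =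
        ((((t0 : ℝ) ^ n)⁻¹ : ℝ) : ℂ) * ∑ t ∈ a.support, a t * (((t : ℝ) ^ n : ℝ) : ℂ) := by
      rw [Finset.mul_sum]
      refine Finset.sum_congr rfl fun t _ => ?_
      have e1 : ((((t : ℝ) / t0) ^ n : ℝ) : ℂ) =
          ((((t0 : ℝ) ^ n)⁻¹ : ℝ) : ℂ) * (((t : ℝ) ^ n : ℝ) : ℂ) := by
        rw [← Complex.ofReal_mul]
        congr 1
        rw [div_pow]
        field_simp
      rw [e1]
      ring
    rw [this, h0, mul_zero]
  obtain ⟨N, hN⟩ := eventually_atTop.mp hev
  refine Set.Ici_infinite N (hfin.subset ?_)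
  intro n hn
  exact hN n hn

end Pool.Agent.Work.MP_10b086_an.Wild
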