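import Pool.Agent.Work.MP_10b086_an.Wild.Stmts

/-!
# The quadratic systems can be solved
-/

open Cardinal Submodule Finset Filter Topology
open scoped ComplexConjugate

namespace Pool.Agent.Work.MP_10b086_an.Wild

theorem exists_strongRec {α : Type} (d : α) (Ψ : ℕ → (ℕ → α) → α) :
    ∃ y : ℕ → α, ∀ j, y j = Ψ j (fun i => if i < j then y i else d) := by
  classical
  let y : ℕ → α := fun j =>
    Nat.strongRec (motive := fun _ => α) (fun j ih => Ψ j fun i => if h : i < j then ih i h else d) j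
  refine ⟨y, fun j => ?_⟩
  have h1 : y j = Ψ j fun i => if h : i < j then y i else d := by
    change Nat.strongRec (motive := fun _ => α) _ j = _
    rw [Nat.strongRec_eq]
  rw [h1]
  congr 1

theorem idx_inj {a c t a' c' t' : ℕ} (h : idx a c t = idx a' c' t') :
    a = a' ∧ c = c' ∧ t = t' := by
  simp only [idx, Nat.add_right_cancel_iff, Nat.pair_eq_pair] at h
  exact ⟨h.1.1, h.1.2, h.2⟩

theorem lt_idx_left (a c t : ℕ) : a < idx a c t :=
  Nat.lt_succ_of_le ((Nat.left_le_pair a c).trans (Nat.left_le_pair _ _))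

theorem lt_idx_right (a c t : ℕ) : c < idx a c t :=
  Nat.lt_succ_of_le ((Nat.right_le_pair a c).trans (Nat.left_le_pair _ _))

theorem exists_idx (n : ℕ) (hn : n ≠ 0) : ∃ a c t, n = idx a c t := by
  refine ⟨(Nat.unpair (Nat.unpair (n - 1)).1).1, (Nat.unpair (Nat.unpair (n - 1)).1).2,
    (Nat.unpair (n - 1)).2, ?_⟩
  rw [idx, Nat.pair_unpair, Nat.pair_unpair]
  omega

theorem dl_pos (n : ℕ) : 0 < dl n := by
  rw [dl]; positivity

theorem dl_le_one (n : ℕ) : dl n ≤ 1 := by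
  rw [dl, div_le_one (by positivity)]
  have : (0 : ℝ) ≤ (((Nat.unpair (n - 1)).2 / 2 : ℕ) : ℝ) := by positivity
  linarith

theorem dl_idx (a c t : ℕ) : dl (idx a c t) = 1 / ((t / 2 : ℕ) + 1 : ℝ) := by
  rw [dl, idx, Nat.add_sub_cancel, Nat.unpair_pair]

section

variable (z q : ℕ → ℕ → ℕ → ℂ) (m : ℕ → ℕ) (g g' : ℕ → ℕ → ℕ → ℂ) (a a' : ℕ → ℕ → (ℕ →₀ ℂ))
  (M : ℕ → ℕ)

/-- the right hand side of the equation at a cell -/
noncomputable def rhs (y : ℕ → ℕ → ℂ) (k r c : ℕ) : ℂ :=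
  ∑ i ∈ range (m k), (dl r : ℂ) * (dl c : ℂ) *
    ((g' k i r + (a' k i).sum fun n x => x * y r n) *
      (g k i c + (a k i).sum fun n x => x * y c n))

theorem exists_coord : ∃ y : ℕ → ℕ → ℂ, (∀ k, y 0 k = 0) ∧
    (∀ k r c, y (idx r c (2 * M k)) k = z k r c - q k r c + rhs m g g' a a' y k r c) ∧
    (∀ k r c, y (idx r c (2 * M k + 1)) k = q k r c) ∧
    (∀ k r c t, t ≠ 2 * M k → t ≠ 2 * M k + 1 → y (idx r c t) k = 0) := by
  classical
  obtain ⟨y, hy⟩ := exists_strongRec (α := ℕ → ℂ) 0 fun j y k =>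
    if j = 0 then 0 else
      (if (Nat.unpair (j - 1)).2 = 2 * M k then
        z k (Nat.unpair (Nat.unpair (j - 1)).1).1 (Nat.unpair (Nat.unpair (j - 1)).1).2 -
          q k (Nat.unpair (Nat.unpair (j - 1)).1).1 (Nat.unpair (Nat.unpair (j - 1)).1).2 +
          rhs m g g' a a' y k (Nat.unpair (Nat.unpair (j - 1)).1).1
            (Nat.unpair (Nat.unpair (j - 1)).1).2
      else if (Nat.unpair (j - 1)).2 = 2 * M k + 1 then
        q k (Nat.unpair (Nat.unpair (j - 1)).1).1 (Nat.unpair (Nat.unpair (j - 1)).1).2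
      else 0)
  have hy' : ∀ k r c t, y (idx r c t) k =
      (if t = 2 * M k then z k r c - q k r c + rhs m g g' a a' y k r c
      else if t = 2 * M k + 1 then q k r c else 0) := by
    intro k r c t
    rw [hy]
    have h0 : idx r c t ≠ 0 := by rw [idx]; omega
    have h1 : idx r c t - 1 = Nat.pair (Nat.pair r c) t := by rw [idx]; omega
    simp only [h0, if_false, h1, Nat.unpair_pair]
    have h2 : rhs m g g' a a' (fun i => if i < idx r c t then y i else 0) k r c =
        rhs m g g' a a' y k r c := by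
      rw [rhs, rhs]
      simp only [lt_idx_left, lt_idx_right, if_true]
    rw [h2]
  refine ⟨y, ?_, ?_, ?_, ?_⟩
  · intro k; rw [hy]; simp
  · intro k r c; rw [hy', if_pos rfl]
  · intro k r c; rw [hy', if_neg (by omega), if_pos rfl]
  · intro k r c t h1 h2; rw [hy', if_neg h1, if_neg h2]

variable {z q m g g' a a' M}

/-- the main estimate -/
theorem sum_norm_le {y : ℕ → ℕ → ℂ} (h0 : ∀ k, y 0 k = 0)
    (h1 : ∀ k r c, y (idx r c (2 * M k)) k = z k r c - q k r c + rhs m g g' a a' y k r c)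
    (h2 : ∀ k r c, y (idx r c (2 * M k + 1)) k = q k r c)
    (h3 : ∀ k r c t, t ≠ 2 * M k → t ≠ 2 * M k + 1 → y (idx r c t) k = 0)
    {nz nq : ℕ → ℝ} {ng ng' : ℕ → ℕ → ℝ}
    (hz : ∀ k (s : Finset (ℕ × ℕ)), ∑ p ∈ s, ‖z k p.1 p.2‖ ≤ nz k)
    (hq : ∀ k (s : Finset (ℕ × ℕ)), ∑ p ∈ s, ‖q k p.1 p.2‖ ≤ nq k)
    (hg : ∀ k i (s : Finset ℕ), ∑ n ∈ s, ‖g k i n‖ ≤ ng k i)
    (hg' : ∀ k i (s : Finset ℕ), ∑ n ∈ s, ‖g' k i n‖ ≤ ng' k i)
    {R : ℕ → ℝ} (hR0 : ∀ k, 0 ≤ R k)
    (hR : ∀ k, nz k + 2 * nq k + ∑ i ∈ range (m k),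
      (ng' k i + ∑ n ∈ range k, ‖a' k i n‖ * R n + 1) *
        (ng k i + ∑ n ∈ range k, ‖a k i n‖ * R n + 1) ≤ R k)
    (hM : ∀ n, ∀ k ≤ n, ∀ i ∈ range (m k), ‖a k i n‖ * R n ≤ (M n + 1) * (1 / 2) ^ (n + 1))
    (hM' : ∀ n, ∀ k ≤ n, ∀ i ∈ range (m k), ‖a' k i n‖ * R n ≤ (M n + 1) * (1 / 2) ^ (n + 1)) :
    ∀ N k, ∑ j ∈ range N, ‖y j k‖ ≤ R k := by
  classical
  -- the weights on the support of a coordinate sequence
  have hdl : ∀ r n, dl r * ‖y r n‖ = 1 / (M n + 1 : ℝ) * ‖y r n‖ := by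
    intro r n
    by_cases hr : r = 0
    · subst hr; rw [h0]; simp
    · obtain ⟨a, c, t, rfl⟩ := exists_idx r hr
      by_cases ht : t = 2 * M n
      · rw [dl_idx, ht]
        congr 3
        have : 2 * M n / 2 = M n := by omega
        rw [this]
      · by_cases ht' : t = 2 * M n + 1
        · rw [dl_idx, ht']
          congr 3
          have : (2 * M n + 1) / 2 = M n := by omega
          rw [this]
        · rw [h3 n a c t ht ht']; simp
  -- the estimate of one factor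
  have hfac : ∀ N, (∀ k, ∑ j ∈ range N, ‖y j k‖ ≤ R k) → ∀ k, ∀ i ∈ range (m k),
      ∀ (f : ℕ → ℂ) (nf : ℝ) (b : ℕ →₀ ℂ), (∀ s : Finset ℕ, ∑ n ∈ s, ‖f n‖ ≤ nf) →
      (∀ n, k ≤ n → ‖b n‖ * R n ≤ (M n + 1) * (1 / 2) ^ (n + 1)) →
      ∑ r ∈ range N, dl r * ‖f r + b.sum fun n x => x * y r n‖ ≤
        nf + ∑ n ∈ range k, ‖b n‖ * R n + 1 := by
    intro N hN k i hi f nf b hf hb
    have e1 : ∀ r, dl r * ‖f r + b.sum fun n x => x * y r n‖ ≤
        ‖f r‖ + ∑ n ∈ b.support, ‖b n‖ * (dl r * ‖y r n‖) := by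
      intro r
      have e2 : ‖f r + b.sum fun n x => x * y r n‖ ≤ ‖f r‖ + ∑ n ∈ b.support, ‖b n‖ * ‖y r n‖ := by
        refine (norm_add_le _ _).trans (add_le_add le_rfl ?_)
        rw [Finsupp.sum]
        refine (norm_sum_le _ _).trans (sum_le_sum fun n _ => ?_)
        rw [norm_mul]
      calc dl r * ‖f r + b.sum fun n x => x * y r n‖
          ≤ dl r * (‖f r‖ + ∑ n ∈ b.support, ‖b n‖ * ‖y r n‖) :=
            mul_le_mul_of_nonneg_left e2 (dl_pos r).le
        _ = dl r * ‖f r‖ + ∑ n ∈ b.support, ‖b n‖ * (dl r * ‖y r n‖) := by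
            rw [mul_add, mul_sum]
            congr 1
            exact sum_congr rfl fun n _ => by ring
        _ ≤ _ := by
            refine add_le_add ?_ le_rfl
            have := mul_le_mul_of_nonneg_right (dl_le_one r) (norm_nonneg (f r))
            rwa [one_mul] at this
    refine (sum_le_sum fun r _ => e1 r).trans ?_
    rw [Finset.sum_add_distrib, sum_comm]
    have e3 : ∀ n ∈ b.support, ∑ r ∈ range N, ‖b n‖ * (dl r * ‖y r n‖) ≤
        (if n < k then ‖b n‖ * R n else 0) + (1 / 2 : ℝ) ^ (n + 1) := by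
      intro n _
      by_cases hnk : n < k
      · rw [if_pos hnk, ← mul_sum]
        have e4 : ∑ r ∈ range N, dl r * ‖y r n‖ ≤ R n := by
          refine le_trans (sum_le_sum fun r _ => ?_) (hN n)
          have := mul_le_mul_of_nonneg_right (dl_le_one r) (norm_nonneg (y r n))
          rwa [one_mul] at this
        have e5 := mul_le_mul_of_nonneg_left e4 (norm_nonneg (b n))
        have : (0 : ℝ) ≤ (1 / 2 : ℝ) ^ (n + 1) := by positivity
        linarith
      · rw [if_neg hnk, zero_add]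
        have e4 : ∑ r ∈ range N, ‖b n‖ * (dl r * ‖y r n‖) =
            ‖b n‖ * (1 / (M n + 1 : ℝ)) * ∑ r ∈ range N, ‖y r n‖ := by
          rw [mul_sum]
          exact sum_congr rfl fun r _ => by rw [hdl]; ring
        rw [e4]
        have e5 : ‖b n‖ * (1 / (M n + 1 : ℝ)) * ∑ r ∈ range N, ‖y r n‖ ≤
            ‖b n‖ * (1 / (M n + 1 : ℝ)) * R n :=
          mul_le_mul_of_nonneg_left (hN n) (by positivity)
        refine e5.trans ?_
        have e6 := hb n (not_lt.1 hnk)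
        have e7 : (0 : ℝ) < M n + 1 := by positivity
        rw [mul_comm (‖b n‖ * _), ← mul_assoc, mul_one_div, div_le_iff₀ e7]
        calc R n * ‖b n‖ = ‖b n‖ * R n := mul_comm _ _
          _ ≤ _ := e6
          _ = _ := mul_comm _ _
    have e8 : ∑ n ∈ b.support, ∑ r ∈ range N, ‖b n‖ * (dl r * ‖y r n‖) ≤
        ∑ n ∈ range k, ‖b n‖ * R n + 1 := by
      refine (sum_le_sum e3).trans ?_
      rw [Finset.sum_add_distrib]
      refine add_le_add ?_ ?_
      · rw [← Finset.sum_filter]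
        refine sum_le_sum_of_subset_of_nonneg ?_ fun n _ _ => mul_nonneg (norm_nonneg _) (hR0 n)
        intro n hn
        rw [mem_filter] at hn
        exact mem_range.2 hn.2
      · have hs : HasSum (fun n : ℕ => (1 / 2 : ℝ) ^ (n + 1)) 1 := by
          have := hasSum_geometric_two.mul_left (1 / 2 : ℝ)
          simpa [pow_succ, mul_comm] using this
        exact sum_le_hasSum _ (fun n _ => by positivity) hs
    have := hf (range N)
    linarith
  intro N
  induction N with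
  | zero => intro k; simpa using hR0 k
  | succ N ih =>
    intro k
    -- only the cells below `N` matter
    set D : Finset (ℕ × ℕ) := range N ×ˢ range N with hD
    have e1 : ∑ j ∈ range (N + 1), ‖y j k‖ ≤
        ∑ p ∈ D, (‖y (idx p.1 p.2 (2 * M k)) k‖ + ‖y (idx p.1 p.2 (2 * M k + 1)) k‖) := by
      have e2 : ∑ p ∈ D, (‖y (idx p.1 p.2 (2 * M k)) k‖ + ‖y (idx p.1 p.2 (2 * M k + 1)) k‖) =
          ∑ x ∈ D ×ˢ {2 * M k, 2 * M k + 1}, ‖y (idx x.1.1 x.1.2 x.2) k‖ := by
        have e9 : ∑ x ∈ D ×ˢ {2 * M k, 2 * M k + 1}, ‖y (idx x.1.1 x.1.2 x.2) k‖ =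
            ∑ p ∈ D, ∑ t ∈ ({2 * M k, 2 * M k + 1} : Finset ℕ), ‖y (idx p.1 p.2 t) k‖ :=
          Finset.sum_product D _ _
        rw [e9]
        refine Finset.sum_congr rfl ?_
        intro p _
        rw [Finset.sum_pair (by omega)]
      rw [e2]
      have e3 : ∑ x ∈ D ×ˢ {2 * M k, 2 * M k + 1}, ‖y (idx x.1.1 x.1.2 x.2) k‖ =
          ∑ j ∈ (D ×ˢ {2 * M k, 2 * M k + 1}).image
            (fun x : (ℕ × ℕ) × ℕ => idx x.1.1 x.1.2 x.2), ‖y j k‖ := by
        rw [Finset.sum_image]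
        rintro ⟨⟨r, c⟩, t⟩ _ ⟨⟨r', c'⟩, t'⟩ _ h
        obtain ⟨rfl, rfl, rfl⟩ := idx_inj h
        rfl
      rw [e3, ← Finset.sum_filter_add_sum_filter_not (range (N + 1)) (fun j => y j k = 0)]
      have e4 : ∑ j ∈ (range (N + 1)).filter (fun j => y j k = 0), ‖y j k‖ = 0 := by
        refine sum_eq_zero fun j hj => ?_
        rw [(mem_filter.1 hj).2, norm_zero]
      rw [e4, zero_add]
      refine sum_le_sum_of_subset_of_nonneg ?_ fun _ _ _ => norm_nonneg _
      intro j hj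
      rw [mem_filter, mem_range] at hj
      have hj0 : j ≠ 0 := by
        rintro rfl
        exact hj.2 (h0 k)
      obtain ⟨r, c, t, rfl⟩ := exists_idx j hj0
      have l1 := lt_idx_left r c t
      have l2 := lt_idx_right r c t
      refine mem_image.2 ⟨((r, c), t), ?_, rfl⟩
      rw [mem_product, hD, mem_product]
      refine ⟨⟨mem_range.2 (by simp only; omega), mem_range.2 (by simp only; omega)⟩, ?_⟩
      simp only [mem_insert, mem_singleton]
      by_contra hcon
      push Not at hcon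
      exact hj.2 (h3 k r c t hcon.1 hcon.2)
    refine e1.trans ?_
    have e5 : ∀ p ∈ D, ‖y (idx p.1 p.2 (2 * M k)) k‖ + ‖y (idx p.1 p.2 (2 * M k + 1)) k‖ ≤
        ‖z k p.1 p.2‖ + 2 * ‖q k p.1 p.2‖ + ∑ i ∈ range (m k),
          (dl p.1 * ‖g' k i p.1 + (a' k i).sum fun n x => x * y p.1 n‖) *
            (dl p.2 * ‖g k i p.2 + (a k i).sum fun n x => x * y p.2 n‖) := by
      intro p _
      rw [h1, h2]
      have e6 : ‖rhs m g g' a a' y k p.1 p.2‖ ≤ ∑ i ∈ range (m k),
          (dl p.1 * ‖g' k i p.1 + (a' k i).sum fun n x => x * y p.1 n‖) *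
            (dl p.2 * ‖g k i p.2 + (a k i).sum fun n x => x * y p.2 n‖) := by
        rw [rhs]
        refine (norm_sum_le _ _).trans (sum_le_sum fun i _ => le_of_eq ?_)
        rw [norm_mul, norm_mul, norm_mul, Complex.norm_real, Complex.norm_real,
          Real.norm_of_nonneg (dl_pos _).le, Real.norm_of_nonneg (dl_pos _).le]
        ring
      have e7 : ‖z k p.1 p.2 - q k p.1 p.2 + rhs m g g' a a' y k p.1 p.2‖ ≤
          ‖z k p.1 p.2‖ + ‖q k p.1 p.2‖ + ‖rhs m g g' a a' y k p.1 p.2‖ :=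
        (norm_add_le _ _).trans (add_le_add (norm_sub_le _ _) le_rfl)
      linarith
    have e8 : ∑ p ∈ D, (‖z k p.1 p.2‖ + 2 * ‖q k p.1 p.2‖ + ∑ i ∈ range (m k),
          (dl p.1 * ‖g' k i p.1 + (a' k i).sum fun n x => x * y p.1 n‖) *
            (dl p.2 * ‖g k i p.2 + (a k i).sum fun n x => x * y p.2 n‖)) =
        ∑ p ∈ D, ‖z k p.1 p.2‖ + 2 * ∑ p ∈ D, ‖q k p.1 p.2‖ + ∑ i ∈ range (m k),
          (∑ r ∈ range N, dl r * ‖g' k i r + (a' k i).sum fun n x => x * y r n‖) *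
            (∑ c ∈ range N, dl c * ‖g k i c + (a k i).sum fun n x => x * y c n‖) := by
      rw [Finset.sum_add_distrib, Finset.sum_add_distrib, ← mul_sum, sum_comm]
      congr 1
      refine sum_congr rfl fun i _ => ?_
      rw [hD, Finset.sum_mul_sum, Finset.sum_product]
    refine (sum_le_sum e5).trans (e8.le.trans (le_trans (add_le_add (add_le_add (hz k D)
      (mul_le_mul_of_nonneg_left (hq k D) (by norm_num : (0:ℝ) ≤ 2))) ?_) (hR k)))
    refine sum_le_sum fun i hi => ?_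
    refine mul_le_mul ?_ ?_ ?_ ?_
    · exact hfac N ih k i hi _ _ _ (hg' k i) (fun n hn => hM' n k hn i hi)
    · exact hfac N ih k i hi _ _ _ (hg k i) (fun n hn => hM n k hn i hi)
    · exact sum_nonneg fun c _ => mul_nonneg (dl_pos c).le (norm_nonneg _)
    · have k1 : 0 ≤ ng' k i := by simpa using hg' k i ∅
      have k2 : 0 ≤ ∑ n ∈ range k, ‖a' k i n‖ * R n :=
        sum_nonneg fun n _ => mul_nonneg (norm_nonneg _) (hR0 n)
      linarith

end

theorem sum_norm_le_norm {ι : Type} (u : lp (fun _ : ι => ℂ) 1) (s : Finset ι) :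
    ∑ i ∈ s, ‖u i‖ ≤ ‖u‖ := by
  have := lp.sum_rpow_le_norm_rpow (by simp : 0 < (1 : ENNReal).toReal) u s
  simpa using this

/-- evaluation at a coordinate -/
def ev {ι : Type} (j : ι) : lp (fun _ : ι => ℂ) 1 →ₗ[ℂ] ℂ where
  toFun u := u j
  map_add' _ _ := rfl
  map_smul' _ _ := rfl

theorem ev_lc (Y : ℕ → UU) (b : ℕ →₀ ℂ) (j : ℕ) :
    (lc Y b) j = b.sum fun n x => x * Y n j := by
  change ev j (Finsupp.linearCombination ℂ Y b) = _
  rw [Finsupp.apply_linearCombination, Finsupp.linearCombination_apply]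
  rfl

theorem claimC6 : ClaimC6 := by
  intro π ρ b hC z q m g g' a a'
  classical
  -- the bounds
  obtain ⟨R, hR⟩ := exists_strongRec (α := ℝ) 0 fun k R =>
    ‖z k‖ + 2 * ‖q k‖ + ∑ i ∈ range (m k),
      (‖g' k i‖ + ∑ n ∈ range k, ‖a' k i n‖ * R n + 1) *
        (‖g k i‖ + ∑ n ∈ range k, ‖a k i n‖ * R n + 1)
  have hR' : ∀ k, R k = ‖z k‖ + 2 * ‖q k‖ + ∑ i ∈ range (m k),
      (‖g' k i‖ + ∑ n ∈ range k, ‖a' k i n‖ * R n + 1) *
        (‖g k i‖ + ∑ n ∈ range k, ‖a k i n‖ * R n + 1) := by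
    intro k
    have e1 : ∀ c : ℕ → ℝ, ∑ n ∈ range k, c n * (if n < k then R n else 0) =
        ∑ n ∈ range k, c n * R n := by
      intro c
      exact sum_congr rfl fun n hn => by rw [if_pos (mem_range.1 hn)]
    rw [hR k]
    simp only [e1]
  have hR0 : ∀ k, 0 ≤ R k := by
    intro k
    induction k using Nat.strong_induction_on with
    | _ k ih =>
      rw [hR' k]
      have e1 : ∀ c : ℕ → ℂ, 0 ≤ ∑ n ∈ range k, ‖c n‖ * R n := fun c =>
        sum_nonneg fun n hn => mul_nonneg (norm_nonneg _) (ih n (mem_range.1 hn))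
      have e2 : 0 ≤ ∑ i ∈ range (m k),
          (‖g' k i‖ + ∑ n ∈ range k, ‖a' k i n‖ * R n + 1) *
            (‖g k i‖ + ∑ n ∈ range k, ‖a k i n‖ * R n + 1) := by
        refine sum_nonneg fun i _ => mul_nonneg ?_ ?_
        · have := e1 (a' k i); have := norm_nonneg (g' k i); linarith
        · have := e1 (a k i); have := norm_nonneg (g k i); linarith
      have := norm_nonneg (z k)
      have := norm_nonneg (q k)
      linarith
  -- the levels
  have hMex : ∀ n, ∃ M : ℕ, ∀ k ≤ n, ∀ i ∈ range (m k),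
      ‖a k i n‖ * R n ≤ (M + 1) * (1 / 2) ^ (n + 1) ∧
      ‖a' k i n‖ * R n ≤ (M + 1) * (1 / 2) ^ (n + 1) := by
    intro n
    set B : ℝ := ∑ k ∈ range (n + 1), ∑ i ∈ range (m k), (‖a k i n‖ + ‖a' k i n‖) * R n with hB
    obtain ⟨M, hM⟩ := exists_nat_ge (B * 2 ^ (n + 1))
    refine ⟨M, fun k hk i hi => ?_⟩
    have h1 : (‖a k i n‖ + ‖a' k i n‖) * R n ≤ B := by
      have h2 : (‖a k i n‖ + ‖a' k i n‖) * R n ≤
          ∑ i ∈ range (m k), (‖a k i n‖ + ‖a' k i n‖) * R n :=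
        Finset.single_le_sum (f := fun i => (‖a k i n‖ + ‖a' k i n‖) * R n)
          (fun i _ => mul_nonneg (by positivity) (hR0 n)) hi
      refine h2.trans ?_
      exact Finset.single_le_sum
        (f := fun k => ∑ i ∈ range (m k), (‖a k i n‖ + ‖a' k i n‖) * R n)
        (fun k _ => sum_nonneg fun i _ => mul_nonneg (by positivity) (hR0 n))
        (mem_range.2 (by omega))
    have h2 : B ≤ (M + 1) * (1 / 2) ^ (n + 1) := by
      have h3 : (0 : ℝ) < 2 ^ (n + 1) := by positivity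
      rw [one_div, inv_pow, ← div_eq_mul_inv, le_div_iff₀ h3]
      linarith
    have h3 := mul_nonneg (norm_nonneg (a k i n)) (hR0 n)
    have h4 := mul_nonneg (norm_nonneg (a' k i n)) (hR0 n)
    rw [add_mul] at h1
    constructor <;> linarith
  choose M hM using hMex
  -- the coordinates
  obtain ⟨y, h0, h1, h2, h3⟩ := exists_coord (fun k r c => z k (r, c)) (fun k r c => q k (r, c)) m
    (fun k i r => g k i r) (fun k i r => g' k i r) a a' M
  have hbound := sum_norm_le h0 h1 h2 h3 (nz := fun k => ‖z k‖) (nq := fun k => ‖q k‖)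
    (ng := fun k i => ‖g k i‖) (ng' := fun k i => ‖g' k i‖)
    (fun k s => sum_norm_le_norm (z k) s) (fun k s => sum_norm_le_norm (q k) s)
    (fun k i s => sum_norm_le_norm (g k i) s) (fun k i s => sum_norm_le_norm (g' k i) s)
    hR0 (fun k => (hR' k).ge) (fun n k hk i hi => (hM n k hk i hi).1)
    (fun n k hk i hi => (hM n k hk i hi).2)
  have hmem : ∀ k, Memℓp (fun j => y j k) 1 := by
    intro k
    refine memℓp_gen ?_
    simp only [ENNReal.toReal_one, Real.rpow_one]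
    exact summable_of_sum_range_le (fun _ => norm_nonneg _) (fun N => hbound N k)
  let Y : ℕ → UU := fun k => ⟨fun j => y j k, hmem k⟩
  have hY : ∀ k j, Y k j = y j k := fun k j => rfl
  refine ⟨Y, fun k => ⟨?_, ?_⟩⟩
  · ext ⟨r, c⟩
    rw [hC.π_apply]
    have e1 : ∑' t, Y k (idx r c t) = Y k (idx r c (2 * M k)) + Y k (idx r c (2 * M k + 1)) := by
      rw [tsum_eq_sum (s := {2 * M k, 2 * M k + 1}), Finset.sum_pair (by omega)]
      intro t ht
      simp only [mem_insert, mem_singleton, not_or] at ht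
      exact h3 k r c t ht.1 ht.2
    rw [e1, hY, hY, h1, h2]
    have e2 : (z k + ∑ i ∈ range (m k), b (g' k i + lc Y (a' k i)) (g k i + lc Y (a k i))) (r, c) =
        z k (r, c) + rhs m (fun k i r => g k i r) (fun k i r => g' k i r) a a' y k r c := by
      rw [rhs]
      change ev (r, c) (z k + ∑ i ∈ range (m k),
        b (g' k i + lc Y (a' k i)) (g k i + lc Y (a k i))) = _
      rw [map_add, map_sum]
      congr 1
      refine sum_congr rfl fun i _ => ?_
      change (b (g' k i + lc Y (a' k i)) (g k i + lc Y (a k i))) (r, c) = _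
      rw [hC.b_apply]
      change _ * ((g' k i r + (lc Y (a' k i)) r) * (g k i c + (lc Y (a k i)) c)) = _
      rw [ev_lc, ev_lc]
    rw [e2]
    ring
  · ext ⟨r, c⟩
    rw [hC.ρ_apply]
    rw [tsum_eq_single (M k)]
    · rw [hY, h2]
    · intro t ht
      rw [hY]
      exact h3 k r c _ (by omega) (by omega)

end Pool.Agent.Work.MP_10b086_an.Wild
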