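import Pool.Agent.Work.MP_10b086_an.Bd.B04
import Pool.Agent.Work.MP_10b086_an.Bd.B05
import Pool.Agent.Work.MP_10b086_an.Wild.C4
import Pool.Agent.Work.MP_10b086_an.Wild.C6
import Pool.Agent.Work.MP_10b086_an.Bd.B06
import Pool.Agent.Work.MP_10b086_an.Wild.A1
import Pool.Agent.Work.MP_10b086_an.Wild.A2

/-!
# Assembly of the separable example
-/

namespace Pool.Agent.Work.MP_10b086_an.Wild

/-- There is a separable Banach *-algebra `A` with `A = A²` and a discontinuous positive
functional. -/
theorem wild : ClaimA3 := by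
  have c9 : ClaimC9 := claimC9 claimC1 claimC2 (claimC5 claimC3 claimC4) claimC6 claimC7
  have l4 : ClaimL4 := claimL4 claimL1 claimL3
  have l5 : ClaimL5 := claimL5 claimL1 claimL3 l4
  have p1 : ClaimP1 := claimP1 claimL2 claimL1
  have p3 : ClaimP3 := claimP3 l5 claimL1 (claimD2 claimD1) p1
  have p6 : ClaimP6 := claimP6 (claimP2 p1) p3 claimP4 claimP5
  exact claimA3 c9 claimC8 p6 (claimA2 claimA1 claimL1)

end Pool.Agent.Work.MP_10b086_an.Wild
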