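import Mathlib

/-!
# Definitions for the separable example

See `BLUEPRINT.md` in this folder.
-/

open Cardinal Submodule Finset Filter Topology
open scoped ComplexConjugate

namespace Pool.Agent.Work.MP_10b086_an.Wild

section Basic

variable {U Z : Type} [NormedAddCommGroup U] [NormedSpace ℂ U] [NormedAddCommGroup Z]
  [NormedSpace ℂ Z]

/-- the span of the values `b x y` with `x, y` in `G` -/
def BB (b : U →ₗ[ℂ] U →ₗ[ℂ] Z) (G : Submodule ℂ U) : Submodule ℂ Z :=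
  span ℂ {z | ∃ x ∈ G, ∃ y ∈ G, z = b x y}

/-- linear combinations with finitely many terms -/
noncomputable abbrev lc {E : Type} [AddCommGroup E] [Module ℂ E] (x : ℕ → E) :
    (ℕ →₀ ℂ) →ₗ[ℂ] E :=
  Finsupp.linearCombination ℂ x

/-- the coordinatewise conjugate of a finitely supported sequence -/
noncomputable def cj (a : ℕ →₀ ℂ) : ℕ →₀ ℂ := a.mapRange conj (map_zero _)

variable (U Z) in
/-- The fixed data: two Banach spaces, two operators and a bilinear map. -/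
structure Frame where
  /-- the first projection -/
  π : U →ₗ[ℂ] Z
  /-- the second projection -/
  ρ : U →ₗ[ℂ] Z
  /-- the bilinear map -/
  b : U →ₗ[ℂ] U →ₗ[ℂ] Z
  π_le : ∀ u, ‖π u‖ ≤ ‖u‖
  b_le : ∀ u w, ‖b u w‖ ≤ ‖u‖ * ‖w‖
  free : ∀ (n : ℕ) (x y : Fin n → U), LinearIndependent ℂ x →
    ∑ i, b (x i) (y i) = 0 → ∀ i, y i = 0
  ind : ∀ C : Set Z, #C < 𝔠 → ∃ s : ℕ → Z,
    LinearIndependent ℂ fun n => (span ℂ C ⊔ BB b ⊤).mkQ (s n)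
  sys : ∀ (z q : ℕ → Z) (m : ℕ → ℕ) (g g' : ℕ → ℕ → U) (a a' : ℕ → ℕ → (ℕ →₀ ℂ)),
    ∃ Y : ℕ → U, ∀ k,
      π (Y k) = z k + ∑ i ∈ range (m k), b (g' k i + lc Y (a' k i)) (g k i + lc Y (a k i)) ∧
      ρ (Y k) = q k
  card : #U ≤ 𝔠

/-- `π g` can be written with vectors of `G` as soon as it can be written at all -/
def Frame.Closed (F : Frame U Z) (G : Submodule ℂ U) : Prop :=
  ∀ g ∈ G, F.π g ∈ BB F.b ⊤ → F.π g ∈ BB F.b G

/-- A partial solution. The functions matter only on `G`. -/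
structure Part (F : Frame U Z) where
  /-- the domain -/
  G : Submodule ℂ U
  /-- the involution -/
  T : U → U
  /-- the functional -/
  α : U → ℂ
  /-- the form -/
  h : U → U → ℂ
  T_mem : ∀ g ∈ G, T g ∈ G
  T_add : ∀ g ∈ G, ∀ k ∈ G, T (g + k) = T g + T k
  T_smul : ∀ c : ℂ, ∀ g ∈ G, T (c • g) = conj c • T g
  T_T : ∀ g ∈ G, T (T g) = g
  α_add : ∀ g ∈ G, ∀ k ∈ G, α (g + k) = α g + α k
  α_smul : ∀ c : ℂ, ∀ g ∈ G, α (c • g) = c * α g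
  α_T : ∀ g ∈ G, α (T g) = conj (α g)
  h_add : ∀ g ∈ G, ∀ g' ∈ G, ∀ k ∈ G, h (g + g') k = h g k + h g' k
  h_smul : ∀ c : ℂ, ∀ g ∈ G, ∀ k ∈ G, h (c • g) k = c * h g k
  h_symm : ∀ g ∈ G, ∀ k ∈ G, h k g = conj (h g k)
  h_pos : ∀ g ∈ G, g ≠ 0 → ‖α g‖ ^ 2 < (h g g).re
  closed : F.Closed G
  star : ∀ g ∈ G, ∀ (n : ℕ) (x y : ℕ → U), (∀ i, x i ∈ G) → (∀ i, y i ∈ G) →
    F.π g = ∑ i ∈ range n, F.b (x i) (y i) →
    F.π (T g) = ∑ i ∈ range n, F.b (T (y i)) (T (x i))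
  beta : ∀ g ∈ G, ∀ (n : ℕ) (x y : ℕ → U), (∀ i, x i ∈ G) → (∀ i, y i ∈ G) →
    F.π g = ∑ i ∈ range n, F.b (x i) (y i) →
    α g = ∑ i ∈ range n, h (x i) (T (y i))

/-- `Q` extends `P` -/
def Part.Ext {F : Frame U Z} (P Q : Part F) : Prop :=
  P.G ≤ Q.G ∧ (∀ g ∈ P.G, Q.T g = P.T g) ∧ (∀ g ∈ P.G, Q.α g = P.α g) ∧
    ∀ g ∈ P.G, ∀ k ∈ P.G, Q.h g k = P.h g k

/-- `G` is spanned by at most `κ` vectors -/
def Size {E : Type} [AddCommGroup E] [Module ℂ E] (G : Submodule ℂ E) (κ : Cardinal.{0}) : Prop :=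
  ∃ S : Set E, #S ≤ κ ∧ G = span ℂ S

/-- A positive definite hermitian form `h` on `E` together with a functional `α` such that
`h g g > |α g|²` for `g ≠ 0`. -/
structure Good {E : Type} [AddCommGroup E] [Module ℂ E] (α : E → ℂ) (h : E → E → ℂ) : Prop where
  α_add : ∀ g k, α (g + k) = α g + α k
  α_smul : ∀ (c : ℂ) g, α (c • g) = c * α g
  h_add : ∀ g g' k, h (g + g') k = h g k + h g' k
  h_smul : ∀ (c : ℂ) g k, h (c • g) k = c * h g k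
  h_symm : ∀ g k, h k g = conj (h g k)
  h_pos : ∀ g, g ≠ 0 → ‖α g‖ ^ 2 < (h g g).re

end Basic

/-! ### The concrete spaces -/

/-- `ℓ¹(ℕ)` -/
abbrev UU : Type := lp (fun _ : ℕ => ℂ) 1

/-- `ℓ¹(ℕ × ℕ)` -/
abbrev ZZ : Type := lp (fun _ : ℕ × ℕ => ℂ) 1

/-- the index attached to a cell `(a, c)` and a number `t`; every `n ≥ 1` is of this form for
exactly one triple, and `a, c < idx a c t` -/
def idx (a c t : ℕ) : ℕ := Nat.pair (Nat.pair a c) t + 1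

/-- the weights; `dl (idx a c t) = 1 / (t / 2 + 1)` (integer division in `t / 2`) -/
noncomputable def dl (n : ℕ) : ℝ := 1 / (((Nat.unpair (n - 1)).2 / 2 : ℕ) + 1 : ℝ)

/-- The concrete operators. -/
structure Conc (π ρ : UU →ₗ[ℂ] ZZ) (b : UU →ₗ[ℂ] UU →ₗ[ℂ] ZZ) : Prop where
  π_apply : ∀ (u : UU) (a c : ℕ), π u (a, c) = ∑' t, u (idx a c t)
  ρ_apply : ∀ (u : UU) (a c : ℕ), ρ u (a, c) = ∑' r, u (idx a c (2 * r + 1))
  b_apply : ∀ (u w : UU) (n k : ℕ), b u w (n, k) = (dl n : ℂ) * (dl k : ℂ) * (u n * w k)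
  π_le : ∀ u, ‖π u‖ ≤ ‖u‖
  b_le : ∀ u w, ‖b u w‖ ≤ ‖u‖ * ‖w‖

end Pool.Agent.Work.MP_10b086_an.Wild
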